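import Mathlib

namespace Pool.Agent.Results.MP_1706f7_co.Zero

open Filter Topology

/-- The factor of length `n` of `x` at position `i`. -/
def fac (x : ℕ → Bool) (n i : ℕ) : Fin n → Bool := fun j => x (i + j)
/-- Number of `1`s. -/
def wt {n : ℕ} (u : Fin n → Bool) : ℕ := (Finset.univ.filter fun j => u j = true).card
/-- Blocks of length `n` occurring in some element of `X`. -/
def Lang (X : Set (ℕ → Bool)) (n : ℕ) : Set (Fin n → Bool) := {u | ∃ x ∈ X, ∃ i, u = fac x n i}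
def UnifRec (x : ℕ → Bool) : Prop :=
  ∀ n i, ∃ L, ∀ k, ∃ m, k ≤ m ∧ m ≤ k + L ∧ fac x n m = fac x n i
def Aperiodic (x : ℕ → Bool) : Prop := ¬ ∃ p N, 0 < p ∧ ∀ n, N ≤ n → x (n + p) = x n
def Sturmian (x : ℕ → Bool) : Prop := Aperiodic x ∧ ∀ n, (Lang {x} n).ncard = n + 1
/-- The abelian closure. -/
def AbCl (x : ℕ → Bool) : Set (ℕ → Bool) := {y | ∀ n i, ∃ k, wt (fac y n i) = wt (fac x n k)}

def P (y : ℕ → Bool) (n : ℕ) : ℤ := ∑ j ∈ Finset.range n, if y j = true then 1 else 0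

lemma P_succ (y : ℕ → Bool) (n : ℕ) : P y (n + 1) = P y n + if y n = true then 1 else 0 :=
  Finset.sum_range_succ _ _

lemma wt_fac (y : ℕ → Bool) (n i : ℕ) : (wt (fac y n i) : ℤ) = P y (i + n) - P y i := by
  have : (wt (fac y n i) : ℤ) = ∑ j ∈ Finset.range n, if y (i + j) = true then 1 else 0 := by
    rw [wt, Finset.card_filter, Finset.sum_range]
    push_cast
    rfl
  rw [this, P, P, Finset.sum_range_add]; ring

noncomputable def α : ℝ := √2 - 1

lemma a_lo : 0.414 < α := by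
  have : (1.414 : ℝ) < √2 := Real.lt_sqrt_of_sq_lt (by norm_num)
  unfold α; linarith
lemma a_hi : α < 0.415 := by
  have : √2 < (1.415 : ℝ) := (Real.sqrt_lt' (by norm_num)).2 (by norm_num)
  unfold α; linarith
lemma a_irr : Irrational α := by
  simpa [α] using irrational_sqrt_two.sub_natCast 1

noncomputable def c (n : ℕ) : ℝ := if n % 2 = 0 then 0.4 else 0
noncomputable def S (n : ℕ) : ℤ := ⌊n * α + c n⌋
noncomputable def X (n : ℕ) : Bool := decide (S (n + 1) - S n = 1)

lemma c_bd (n : ℕ) : 0 ≤ c n ∧ c n ≤ 0.4 := by unfold c; split_ifs <;> norm_num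
lemma c_per (n m : ℕ) : c (n + 2 * m) = c n := by simp [c]

lemma S_step (n : ℕ) : S (n + 1) - S n = 0 ∨ S (n + 1) - S n = 1 := by
  have h1 := c_bd n
  have h2 := c_bd (n + 1)
  have := a_lo
  have := a_hi
  have a : S n ≤ S (n + 1) := Int.floor_le_floor (by push_cast; linarith)
  have b : S (n + 1) ≤ S n + 1 := by
    rw [S, S, ← Int.floor_add_one]; exact Int.floor_le_floor (by push_cast; linarith)
  omega

lemma S_val (n : ℕ) (z : ℤ) (h : (z : ℝ) ≤ n * 0.414 + c n ∧ n * 0.415 + c n < z + 1) : S n = z := by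
  have := a_lo
  have := a_hi
  have hn : (0 : ℝ) ≤ n := n.cast_nonneg
  rw [S, Int.floor_eq_iff]
  constructor <;> nlinarith [h.1, h.2]

lemma PX (n : ℕ) : P X n = S n := by
  induction n with
  | zero => rw [S_val 0 0 (by norm_num [c])]; rfl
  | succ n ih =>
    rw [P_succ, ih]
    rcases S_step n with h | h <;> simp [X, h] <;> omega

lemma synd (β δ : ℝ) (hβ : Irrational β) (hδ : 0 < δ) :
    ∃ L : ℕ, ∀ k : ℕ, ∃ m, k ≤ m ∧ m ≤ k + L ∧ ∃ z : ℤ, z ≤ m * β ∧ m * β < z + δ := by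
  obtain ⟨N, hN⟩ := exists_nat_one_div_lt hδ
  obtain ⟨q, q0, -, hq⟩ := Real.exists_nat_abs_mul_sub_round_le β (n := N + 1) (by omega)
  set θ := q * β - round (q * β) with hθ
  have hθ0 : θ ≠ 0 := ((hβ.natCast_mul q0.ne').sub_intCast _).ne_zero
  have hθδ : |θ| < δ := by
    refine hq.trans_lt (lt_of_le_of_lt ?_ hN)
    push_cast
    exact one_div_le_one_div_of_le (by positivity) (by linarith)
  have hp : 0 < |θ| := abs_pos.2 hθ0
  refine ⟨q * ⌈1 / |θ|⌉₊, fun k => ?_⟩
  have f0 := Int.fract_nonneg (k * β)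
  have f1 := Int.fract_lt_one (k * β)
  have fe := Int.floor_add_fract (k * β)
  set f := Int.fract (k * β)
  rcases lt_or_gt_of_ne hθ0 with h | h
  · rw [abs_of_neg h] at *
    set j := ⌊f / -θ⌋₊
    have j1 : (j : ℝ) ≤ f / -θ := Nat.floor_le (by positivity)
    have j2 : f / -θ < j + 1 := Nat.lt_floor_add_one _
    have j3 : j ≤ ⌈1 / -θ⌉₊ := (Nat.floor_le_ceil _).trans (Nat.ceil_mono (by gcongr))
    rw [le_div_iff₀ hp] at j1
    rw [div_lt_iff₀ hp] at j2
    refine ⟨k + q * j, by omega, by gcongr, ⌊k * β⌋ + j * round (q * β), ?_, ?_⟩ <;>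
      push_cast <;> nlinarith
  · rw [abs_of_pos h] at *
    set j := ⌈(1 - f) / θ⌉₊
    have j1 : (1 - f) / θ ≤ j := Nat.le_ceil _
    have j2 : (j : ℝ) < (1 - f) / θ + 1 := Nat.ceil_lt_add_one (div_nonneg (by linarith) h.le)
    have j3 : j ≤ ⌈1 / θ⌉₊ := Nat.ceil_mono (by gcongr; linarith)
    rw [div_le_iff₀ hp] at j1
    rw [← sub_lt_iff_lt_add, lt_div_iff₀ hp] at j2
    refine ⟨k + q * j, by omega, by gcongr, ⌊k * β⌋ + 1 + j * round (q * β), ?_, ?_⟩ <;>
      push_cast <;> nlinarith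

lemma urec : UnifRec X := by
  intro n i
  obtain ⟨δ, hδ, h⟩ : ∃ δ > (0 : ℝ), ∀ j ≤ i + n, j * α + c j + δ ≤ S j + 1 := by
    induction i + n with
    | zero => exact ⟨S 0 + 1 - (((0 : ℕ) : ℝ) * α + c 0), sub_pos.2 (Int.lt_floor_add_one _),
        fun j hj => by obtain rfl : j = 0 := by omega
                       linarith⟩
    | succ m ih =>
      obtain ⟨δ, hδ, h⟩ := ih
      refine ⟨min δ (S (m + 1) + 1 - (((m + 1 : ℕ) : ℝ) * α + c (m + 1))),
        lt_min hδ (sub_pos.2 (Int.lt_floor_add_one _)), fun j hj => ?_⟩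
      rcases Nat.eq_or_lt_of_le hj with rfl | hj
      · linarith [min_le_right δ (S (m + 1) + 1 - (((m + 1 : ℕ) : ℝ) * α + c (m + 1)))]
      · linarith [h j (by omega),
          min_le_left δ (S (m + 1) + 1 - (((m + 1 : ℕ) : ℝ) * α + c (m + 1)))]
  obtain ⟨L, hL⟩ := synd (2 * α) δ (by simpa using a_irr.natCast_mul (m := 2) (by norm_num)) hδ
  refine ⟨i + 2 * L + 2, fun k => ?_⟩
  obtain ⟨m, m1, m2, z, z1, z2⟩ := hL (k / 2 + 1)
  have e : ∀ j ≤ i + n, S (j + 2 * m) = S j + z := by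
    intro j hj
    have := h j hj
    have h0 : (S j : ℝ) ≤ j * α + c j := Int.floor_le _
    rw [S, c_per, Int.floor_eq_iff]
    push_cast
    constructor <;> linarith
  refine ⟨i + 2 * m, by omega, by omega, funext fun j => ?_⟩
  have := j.2
  simp only [fac, X]
  rw [show i + 2 * m + j + 1 = (i + j + 1) + 2 * m by ring,
    show i + 2 * m + j = (i + j) + 2 * m by ring, e _ (by omega), e _ (by omega)]
  simp

lemma aper : Aperiodic X := by
  rintro ⟨p, N, hp, h⟩
  have h1 : ∀ n, N ≤ n → P X (n + p) - P X n = P X (N + p) - P X N := by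
    intro n hn
    induction n, hn using Nat.le_induction with
    | base => rfl
    | succ n hn ih => rw [show n + 1 + p = n + p + 1 by ring, P_succ, P_succ, h n hn]; omega
  set D := P X (N + p) - P X N
  have h2 : ∀ t : ℕ, P X (N + t * p) = P X N + t * D := by
    intro t
    induction t with
    | zero => simp
    | succ t ih =>
      have := h1 (N + t * p) (by omega)
      rw [show N + (t + 1) * p = N + t * p + p by ring]
      push_cast; linarith
  have hne : p * α - D ≠ 0 := ((a_irr.natCast_mul hp.ne').sub_intCast _).ne_zero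
  obtain ⟨t, ht⟩ := exists_nat_gt (2 / |p * α - D|)
  rw [div_lt_iff₀ (abs_pos.2 hne)] at ht
  have h3 := h2 t
  rw [PX, PX] at h3
  have h4 : (S (N + t * p) : ℝ) = S N + t * D := by exact_mod_cast h3
  have a1 : (S (N + t * p) : ℝ) ≤ _ := Int.floor_le _
  have a2 : _ < (S (N + t * p) : ℝ) + 1 := Int.lt_floor_add_one _
  have a3 : (S N : ℝ) ≤ _ := Int.floor_le _
  have a4 : _ < (S N : ℝ) + 1 := Int.lt_floor_add_one _
  have := c_bd N
  have := c_bd (N + t * p)
  push_cast at a1 a2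
  rcases abs_cases (p * α - D) with ⟨e, -⟩ | ⟨e, -⟩ <;> rw [e] at ht <;> nlinarith

lemma nonst : ¬ Sturmian X := by
  rintro ⟨-, h⟩
  have s0 := S_val 0 0 (by norm_num [c])
  have s1 := S_val 1 0 (by norm_num [c])
  have s2 := S_val 2 1 (by norm_num [c])
  have s3 := S_val 3 1 (by norm_num [c])
  have s4 := S_val 4 2 (by norm_num [c])
  have s5 := S_val 5 2 (by norm_num [c])
  have s6 := S_val 6 2 (by norm_num [c])
  have s7 := S_val 7 2 (by norm_num [c])
  have s8 := S_val 8 3 (by norm_num [c])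
  let T : Finset (Fin 3 → Bool) := {![false, true, false], ![true, false, true],
    ![true, false, false], ![false, false, false], ![false, false, true]}
  have hs : (T : Set (Fin 3 → Bool)) ⊆ Lang {X} 3 := by
    intro u hu
    simp only [T, Finset.coe_insert, Finset.coe_singleton, Set.mem_insert_iff,
      Set.mem_singleton_iff] at hu
    rcases hu with rfl | rfl | rfl | rfl | rfl
    · exact ⟨X, rfl, 0, by ext j; fin_cases j <;> simp [fac, X, *]⟩
    · exact ⟨X, rfl, 1, by ext j; fin_cases j <;> simp [fac, X, *]⟩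
    · exact ⟨X, rfl, 3, by ext j; fin_cases j <;> simp [fac, X, *]⟩
    · exact ⟨X, rfl, 4, by ext j; fin_cases j <;> simp [fac, X, *]⟩
    · exact ⟨X, rfl, 5, by ext j; fin_cases j <;> simp [fac, X, *]⟩
  have := Set.ncard_le_ncard hs (Set.toFinite _)
  rw [h 3, Set.ncard_coe_finset, show T.card = 5 by decide] at this
  omega

lemma even_gap (y : ℕ → Bool) (hy : y ∈ AbCl X) (a m : ℕ) :
    |(P y (a + 2 * m) : ℝ) - P y a - (2 * m : ℕ) * α| < 1 := by
  obtain ⟨k, hk⟩ := hy (2 * m) a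
  have h1 : P y (a + 2 * m) - P y a = S (k + 2 * m) - S k := by
    rw [← wt_fac, hk, wt_fac, PX, PX]
  have h2 : (P y (a + 2 * m) : ℝ) - P y a = S (k + 2 * m) - S k := by exact_mod_cast h1
  have a1 : (S (k + 2 * m) : ℝ) ≤ _ := Int.floor_le _
  have a2 : _ < (S (k + 2 * m) : ℝ) + 1 := Int.lt_floor_add_one _
  have a3 : (S k : ℝ) ≤ _ := Int.floor_le _
  have a4 : _ < (S k : ℝ) + 1 := Int.lt_floor_add_one _
  rw [c_per] at a1 a2
  push_cast at a1 a2 ⊢
  rw [h2, abs_lt]
  constructor <;> linarith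

lemma mech (y : ℕ → Bool) (hy : y ∈ AbCl X) (i n r : ℕ) (hr : r < 2) :
    ∃ k0 < n + 2, ∀ k < n + 2, k % 2 = r →
      P y (i + k) = P y (i + r) + ⌈((k : ℝ) - k0) * α⌉ - ⌈((r : ℝ) - k0) * α⌉ := by
  obtain ⟨k0, h0, hm⟩ := Finset.exists_min_image ((Finset.range (n + 2)).filter (· % 2 = r))
    (fun k => (P y (i + k) : ℝ) - k * α) ⟨r, by simp; omega⟩
  simp only [Finset.mem_filter, Finset.mem_range] at h0 hm
  have key : ∀ k < n + 2, k % 2 = r → ⌈((k : ℝ) - k0) * α⌉ = P y (i + k) - P y (i + k0) := by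
    intro k hk hkr
    have h1 := hm k ⟨hk, hkr⟩
    rw [Int.ceil_eq_iff]
    push_cast
    refine ⟨?_, by linarith⟩
    rcases le_total k0 k with h | h
    · obtain ⟨m, rfl⟩ : ∃ m, k = k0 + 2 * m := ⟨(k - k0) / 2, by omega⟩
      have := (abs_lt.1 (even_gap y hy (i + k0) m)).2
      rw [add_assoc] at this
      push_cast at this ⊢
      linarith
    · obtain ⟨m, rfl⟩ : ∃ m, k0 = k + 2 * m := ⟨(k0 - k) / 2, by omega⟩
      have := (abs_lt.1 (even_gap y hy (i + k) m)).1
      rw [add_assoc] at this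
      push_cast at this ⊢
      linarith
  refine ⟨k0, h0.1, fun k hk hkr => ?_⟩
  rw [key k hk hkr, key r (by omega) (by omega)]; ring

noncomputable def G (t : Bool × ℕ × ℕ) (k : ℕ) : ℤ :=
  if k % 2 = 0 then ⌈((k : ℝ) - t.2.1) * α⌉ - ⌈(((0 : ℕ) : ℝ) - t.2.1) * α⌉
  else (if t.1 = true then 1 else 0) + ⌈((k : ℝ) - t.2.2) * α⌉ - ⌈(((1 : ℕ) : ℝ) - t.2.2) * α⌉

lemma count (n : ℕ) : (Lang (AbCl X) n).ncard ≤ 2 * ((n + 2) * (n + 2)) := by
  let T : Finset (Bool × ℕ × ℕ) := Finset.univ ×ˢ Finset.range (n + 2) ×ˢ Finset.range (n + 2)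
  let F : Bool × ℕ × ℕ → Fin n → Bool := fun t j => decide (G t (j + 1) - G t j = 1)
  have hs : Lang (AbCl X) n ⊆ (T.image F : Finset _) := by
    rintro _ ⟨y, hy, i, rfl⟩
    obtain ⟨k0, a0, b0⟩ := mech y hy i n 0 (by omega)
    obtain ⟨k1, a1, b1⟩ := mech y hy i n 1 (by omega)
    have e : ∀ k < n + 2, G (y i, k0, k1) k = P y (i + k) - P y i := by
      intro k hk
      unfold G
      split_ifs with h h2
      · rw [b0 k hk h]; simp only [add_zero]; ring
      · rw [b1 k hk (by omega), P_succ, if_pos h2]; ring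
      · rw [b1 k hk (by omega), P_succ, if_neg h2]; ring
    refine Finset.mem_coe.2 (Finset.mem_image.2 ⟨(y i, k0, k1), by simp [T, a0, a1], ?_⟩)
    funext j
    have := j.2
    simp only [F, fac]
    rw [e _ (by omega), e _ (by omega), ← add_assoc, P_succ]
    cases y (i + j) <;> simp
  refine (Set.ncard_le_ncard hs (Finset.finite_toSet _)).trans ?_
  rw [Set.ncard_coe_finset]
  exact Finset.card_image_le.trans (by simp [T])

theorem result : ∃ x : ℕ → Bool, UnifRec x ∧ Aperiodic x ∧ ¬ Sturmian x ∧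
    Tendsto (fun n : ℕ => Real.log (Lang (AbCl x) n).ncard / n) atTop (𝓝 0) := by
  refine ⟨X, urec, aper, nonst, ?_⟩
  have h1 := ((Real.tendsto_pow_log_div_mul_add_atTop 1 (-2) 1 one_ne_zero).comp
    (tendsto_atTop_add_const_right _ (2 : ℝ) tendsto_natCast_atTop_atTop)).const_mul 3
  rw [mul_zero] at h1
  refine squeeze_zero (fun n => div_nonneg (Real.log_natCast_nonneg _) n.cast_nonneg)
    (fun n => ?_) h1
  simp only [Function.comp, pow_one, one_mul, add_neg_cancel_right]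
  rw [← mul_div_assoc]
  refine div_le_div_of_nonneg_right ?_ n.cast_nonneg
  have hn : (0 : ℝ) ≤ n := n.cast_nonneg
  have h2 : ((Lang (AbCl X) n).ncard : ℝ) ≤ ((n : ℝ) + 2) ^ 3 := by
    have : ((Lang (AbCl X) n).ncard : ℝ) ≤ 2 * ((n + 2) * (n + 2)) := by exact_mod_cast count n
    nlinarith [mul_nonneg hn (mul_self_nonneg ((n : ℝ) + 2))]
  rcases Nat.eq_zero_or_pos (Lang (AbCl X) n).ncard with h | h
  · rw [h]; simp only [Nat.cast_zero, Real.log_zero]
    exact mul_nonneg (by norm_num) (Real.log_nonneg (by linarith))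
  · refine (Real.log_le_log (by exact_mod_cast h) h2).trans_eq ?_
    rw [Real.log_pow]; norm_num

end Pool.Agent.Results.MP_1706f7_co.Zero
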